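import Pool.Agent.helper51.VR.Spec

/-!
# Project vr, row DTA
-/

set_option autoImplicit false

namespace Pool.Agent.VR

open Pool.Agent.RB NumberField IsDedekindDomain Module
open scoped nonZeroDivisors Real Classical IsMulCommutative

theorem DTA_key (R : Type) [CommRing R] (r : ℕ) (M : Matrix (Fin (r + 1)) (Fin (r + 1)) R)
    (j : Fin r) : ∑ i : Fin (r + 1), (-1) ^ (i : ℕ) * M i j.succ *
      Matrix.det (M.submatrix i.succAbove Fin.succ) = 0 := by
  have h0 : Matrix.det (M.updateCol 0 (fun i => M i j.succ)) = 0 := by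
    refine Matrix.det_zero_of_column_eq (i := 0) (j := j.succ) (Fin.succ_ne_zero j).symm fun k => ?_
    rw [Matrix.updateCol_self, Matrix.updateCol_ne (Fin.succ_ne_zero j)]
  rw [Matrix.det_succ_column_zero] at h0
  rw [← h0]
  refine Finset.sum_congr rfl fun i _ => ?_
  have e2 : (M.updateCol 0 (fun i => M i j.succ)).submatrix i.succAbove Fin.succ =
      M.submatrix i.succAbove Fin.succ := by
    ext a b
    rw [Matrix.submatrix_apply, Matrix.submatrix_apply, Matrix.updateCol_ne (Fin.succ_ne_zero b)]
  rw [e2, Matrix.updateCol_self]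

theorem DTA : DTA_stmt := by
  intro R _ r M d n x c h I hI
  have e : d * M.det = ∑ i : Fin (r + 1), (-1) ^ (i : ℕ) *
      (n * x i * Matrix.det (M.submatrix i.succAbove Fin.succ)) := by
    rw [Matrix.det_succ_column_zero, Finset.mul_sum]
    have h1 : ∀ i : Fin (r + 1), d * ((-1) ^ (i : ℕ) * M i 0 *
        Matrix.det (M.submatrix i.succAbove Fin.succ)) =
        (-1) ^ (i : ℕ) * (n * x i * Matrix.det (M.submatrix i.succAbove Fin.succ)) -
        ∑ j, c j * ((-1) ^ (i : ℕ) * M i j.succ *
          Matrix.det (M.submatrix i.succAbove Fin.succ)) := by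
      intro i
      have h2 : ∑ j, c j * ((-1) ^ (i : ℕ) * M i j.succ *
          Matrix.det (M.submatrix i.succAbove Fin.succ)) =
          (∑ j, c j * M i j.succ) * ((-1) ^ (i : ℕ) *
            Matrix.det (M.submatrix i.succAbove Fin.succ)) := by
        rw [Finset.sum_mul]
        refine Finset.sum_congr rfl fun j _ => ?_
        ring
      rw [h2]
      have h3 := h i
      calc d * ((-1) ^ (i : ℕ) * M i 0 * Matrix.det (M.submatrix i.succAbove Fin.succ)) =
          (d * M i 0) * ((-1) ^ (i : ℕ) * Matrix.det (M.submatrix i.succAbove Fin.succ)) := by ring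
        _ = _ := by rw [h3]; ring
    rw [Finset.sum_congr rfl fun i _ => h1 i, Finset.sum_sub_distrib, Finset.sum_comm]
    have h4 : ∑ j, ∑ i : Fin (r + 1), c j * ((-1) ^ (i : ℕ) * M i j.succ *
          Matrix.det (M.submatrix i.succAbove Fin.succ)) = 0 := by
      refine Finset.sum_eq_zero fun j _ => ?_
      rw [← Finset.mul_sum, DTA_key, mul_zero]
    rw [h4, sub_zero]
  rw [e]
  exact I.sum_mem fun i _ => I.mul_mem_left _ (hI i)

end Pool.Agent.VR
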